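import Pool.Agent.Lib_MP_17e2c6_gt.Bright

open Pool.Agent.Lib_MP_17e2c6_gt

namespace Pool.Agent.Results.MP_17e2c6_gt.GirthNotBrightness

/-- There is a convex body in `ℝ⁵` which has constant 2-girth but does not have constant
2-brightness. -/
theorem result : ∃ K : Set (EuclideanSpace ℝ (Fin 5)),
    IsConvexBody K ∧ ConstantGirth 2 K ∧ ¬ ConstantBrightness 2 K := by
  obtain ⟨g, a, v, m, hP⟩ := exists_profile
  refine ⟨body (hh g), ⟨body_convex _, body_compact hP, body_interior hP⟩, girth_const hP, ?_⟩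
  rintro ⟨c, hc⟩
  have h1 := hc (Spl 0 1 (by decide)) (finrank_Spl _ _ _)
  have h2 := hc (Spl 2 3 (by decide)) (finrank_Spl _ _ _)
  have h3 := area_plane01 hP
  have h4 := area_plane23 hP
  unfold proj at h1 h2
  rw [h1] at h3
  rw [h2] at h4
  exact absurd h3 (not_lt.2 h4)

end Pool.Agent.Results.MP_17e2c6_gt.GirthNotBrightness
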